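import Pool.Agent.KK.StmtsV
import Pool.Agent.Helper60_KKB.PUP

/-!
# Squad KK, row PDT: flips downwards by a connector
-/

set_option autoImplicit false

namespace Pool.Agent.KK.H88

open Pool.Agent.KK.H60W

/-- decomposition of the words before and after the gadget -/
theorem core' (k : ℕ) (b : Bool) (U U' : List Bool) (c₁ c₂ : ℕ) (hU : U.length = k)
    (hU' : U'.length = k) (h1 : c₁ < k) (h2 : c₂ < k) (h12 : c₁ ≠ c₂)
    (hb1 : U.getD c₁ false = b) (hb2 : U.getD c₂ false = b)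
    (hUU : ∀ i < k, U'.getD i false = if i = c₁ ∨ i = c₂ then !b else U.getD i false) :
    ∃ m₁ m₂ : List Bool, m₁.length + m₂.length + 2 = k ∧
      (m₁ ++ b :: m₂ ++ [b]).tail = per U (c₁ + 2) (k - 1) ∧
      ((!b) :: m₁ ++ (!b) :: m₂).dropLast = per U' c₁ (k - 1) ∧
      wt U = wt m₁ + wt m₂ + 2 * wt [b] ∧ wt U' = wt m₁ + wt m₂ + 2 * wt [!b] := by
  obtain ⟨d, hd1, hdk, hd⟩ : ∃ d, 1 ≤ d ∧ d < k ∧ (c₁ + d) % k = c₂ := by
    rcases lt_or_gt_of_ne h12 with h | h
    · exact ⟨c₂ - c₁, by omega, by omega, by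
        rw [show c₁ + (c₂ - c₁) = c₂ by omega]; exact Nat.mod_eq_of_lt h2⟩
    · refine ⟨c₂ + k - c₁, by omega, by omega, ?_⟩
      rw [show c₁ + (c₂ + k - c₁) = c₂ + k by omega, Nat.add_mod_right]
      exact Nat.mod_eq_of_lt h2
  have hc1 : (c₁ % k) = c₁ := Nat.mod_eq_of_lt h1
  have hne : ∀ i, 1 ≤ i → i < k → i ≠ d → (c₁ + i) % k ≠ c₁ ∧ (c₁ + i) % k ≠ c₂ := by
    intro i hi1 hik hid
    constructor
    · intro h
      have h3 : (c₁ + i) % k = (c₁ + 0) % k := by rw [h, Nat.add_zero, hc1]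
      have h4 : i % k = 0 % k := Nat.ModEq.add_left_cancel' c₁ h3
      rw [Nat.mod_eq_of_lt hik, Nat.zero_mod] at h4
      omega
    · intro h
      have h3 : (c₁ + i) % k = (c₁ + d) % k := by rw [h, hd]
      have h4 : i % k = d % k := Nat.ModEq.add_left_cancel' c₁ h3
      rw [Nat.mod_eq_of_lt hik, Nat.mod_eq_of_lt hdk] at h4
      exact hid h4
  have hsame : ∀ i, 1 ≤ i → i < k → i ≠ d →
      U'.getD ((c₁ + i) % k) false = U.getD ((c₁ + i) % k) false := by
    intro i hi1 hik hid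
    obtain ⟨h3, h4⟩ := hne i hi1 hik hid
    rw [hUU _ (Nat.mod_lt _ (by omega)), if_neg]
    rintro (h | h)
    · exact h3 h
    · exact h4 h
  have e1 : per U' (c₁ + 1) (d - 1) = per U (c₁ + 1) (d - 1) := by
    apply per_congr
    intro i hi
    rw [hU, hU', show c₁ + 1 + i = c₁ + (1 + i) by omega]
    exact hsame (1 + i) (by omega) (by omega) (by omega)
  have e2 : per U' (c₁ + d + 1) (k - 1 - d) = per U (c₁ + d + 1) (k - 1 - d) := by
    apply per_congr
    intro i hi
    rw [hU, hU', show c₁ + d + 1 + i = c₁ + (d + 1 + i) by omega]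
    exact hsame (d + 1 + i) (by omega) (by omega) (by omega)
  have f1 : per U (c₁ + 1) k = per U (c₁ + 1) (d - 1) ++ b :: per U (c₁ + d + 1) (k - 1 - d) ++
      [b] := by
    have hk : k = (d - 1) + (1 + ((k - 1 - d) + 1)) := by omega
    have g1 : per U (c₁ + 1) k = per U (c₁ + 1) ((d - 1) + (1 + ((k - 1 - d) + 1))) := by
      rw [← hk]
    have p1 : per U (c₁ + 1 + (d - 1)) 1 = [b] := by
      rw [per_one, hU, show c₁ + 1 + (d - 1) = c₁ + d by omega, hd, hb2]
    have p3 : per U (c₁ + d + 1 + (k - 1 - d)) 1 = [b] := by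
      rw [per_one, hU, show c₁ + d + 1 + (k - 1 - d) = c₁ + k by omega, Nat.add_mod_right, hc1,
        hb1]
    rw [g1, per_add, per_add, p1, show c₁ + 1 + (d - 1) + 1 = c₁ + d + 1 by omega, per_add, p3]
    simp
  have f2 : per U' c₁ k = (!b) :: per U (c₁ + 1) (d - 1) ++ (!b) ::
      per U (c₁ + d + 1) (k - 1 - d) := by
    have hk : k = 1 + ((d - 1) + (1 + (k - 1 - d))) := by omega
    have g1 : per U' c₁ k = per U' c₁ (1 + ((d - 1) + (1 + (k - 1 - d)))) := by
      rw [← hk]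
    have p1 : per U' c₁ 1 = [!b] := by
      rw [per_one, hU', hc1, hUU _ h1, if_pos (Or.inl rfl)]
    have p3 : per U' (c₁ + 1 + (d - 1)) 1 = [!b] := by
      rw [per_one, hU', show c₁ + 1 + (d - 1) = c₁ + d by omega, hd, hUU _ h2,
        if_pos (Or.inr rfl)]
    rw [g1, per_add, p1, per_add, e1, per_add, p3,
      show c₁ + 1 + (d - 1) + 1 = c₁ + d + 1 by omega, e2]
    simp
  refine ⟨per U (c₁ + 1) (d - 1), per U (c₁ + d + 1) (k - 1 - d), ?_, ?_, ?_, ?_, ?_⟩
  · rw [per_length, per_length]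
    omega
  · rw [← f1]
    have hk : k = (k - 1) + 1 := by omega
    have g1 : per U (c₁ + 1) k = per U (c₁ + 1) ((k - 1) + 1) := by rw [← hk]
    rw [g1, per_succ]
    rfl
  · rw [← f2]
    have hk : k = (k - 1) + 1 := by omega
    have g1 : per U' c₁ k = per U' c₁ ((k - 1) + 1) := by rw [← hk]
    rw [g1, per_add, per_one, List.dropLast_concat]
  · have h3 := wt_full U (c₁ + 1)
    rw [hU, f1, wt_append, wt_append, wt_cons] at h3
    omega
  · have h3 := wt_full U' c₁
    rw [hU', f2, wt_append, wt_cons, wt_cons (!b) (per U (c₁ + d + 1) (k - 1 - d))] at h3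
    omega

/-- a stretch of letters, a special gadget, a stretch of letters -/
theorem rea_tok (hREL : RelStmt) (hCMO : CmoStmt) (hTKR : TkrStmt) (hPER : PerStmt)
    (V : Type) [Fintype V] [DecidableEq V]
    (H : Finset (Finset V)) (X : Finset V) (k p : ℕ) (ε K K' : ℝ) (U U' c : List Bool)
    (c₁ : ℕ) (z : V) (hk : 2 ≤ k) (hFW : FW H X k p ε) (hU : U.length = k) (hU' : U'.length = k)
    (h1 : c₁ < k) (hpU : wt U % 2 = p) (hpU' : wt U' % 2 = p) (hc : c.length = 2 * k - 1)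
    (hsup : SupT H X k ε K z (per U (c₁ + 2) (k - 1)) c (per U' c₁ (k - 1)))
    (hK : K' + 2 * k ≤ K) :
    Rea H X k p ε K' {z} (2 * k) (cx k U) (cx k U') (4 * k)
      (wt (per U (k - 1) (c₁ + 2)) + (wt c + wt (per U' c₁ (k - 1))) +
        wt (per U' (c₁ + k - 1) (k - c₁))) := by
  have P1 := hPER V H X k p ε ⌈K⌉₊ U 0 (c₁ + 2) (by omega) hU hpU
  rw [Nat.zero_add, Nat.zero_add] at P1
  have R1 := hREL V H X k p ε ⌈K⌉₊ _ _ _ _ _ K (by omega) hFW P1
    (by simpa using Nat.le_ceil K)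
  have R2 := hTKR V H X k p ε K z _ c _ (by omega) (per_length ..) (per_length ..)
    (by omega) hsup
  have P3 := hPER V H X k p ε ⌈K⌉₊ U' c₁ (k - c₁) (by omega) hU' hpU'
  have e1 : per U' (c₁ + (k - c₁)) (k - 1) = per U' 0 (k - 1) := by
    have := per_period U' 0 (k - 1)
    rw [hU', Nat.zero_add] at this
    rw [show c₁ + (k - c₁) = k by omega]
    exact this
  rw [e1] at P3
  have R3 := hREL V H X k p ε ⌈K⌉₊ _ _ _ _ _ (K' + 2 * k - 1) (by omega) hFW P3
    (by
      have := Nat.le_ceil K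
      push_cast
      linarith)
  have hc' : ((c.length : ℕ) : ℝ) = 2 * k - 1 := by
    rw [hc, Nat.cast_sub (by omega)]
    push_cast
    ring
  have R12 := hCMO.2.1 V H X ∅ {z} k p ε K (K' + 2 * k - 1) _ _ _ _ _ _ _ _ _ (by omega) R1 R2
    (Finset.disjoint_empty_left _) (by
      rw [Finset.card_singleton]
      push_cast
      linarith)
  have R := hCMO.2.1 V H X (∅ ∪ {z}) ∅ k p ε (K' + 2 * k - 1) K' _ _ _ _ _ _ _ _ _ (by omega)
    R12 R3 (Finset.disjoint_empty_right _) (by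
      rw [Finset.card_empty]
      push_cast [hc']
      linarith)
  rw [Finset.empty_union, Finset.union_empty] at R
  have R' := hCMO.2.2 V H X {z} k p ε ε K' K' _ (2 * k) _ _ _ _ R le_rfl le_rfl (by omega)
  have hN : c₁ + 2 + (c.length + (k - 1)) + (k - c₁) = 4 * k := by omega
  rw [hN] at R'
  exact R'

theorem wt_le (w : List Bool) : wt w ≤ w.length := List.count_le_length ..

theorem pdt (hSRT : SrtStmt) (hREL : RelStmt) (hCMO : CmoStmt) (hTKR : TkrStmt)
    (hPER : PerStmt) : PdtStmt := by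
  intro V _ _ H X k p j ε K K' W W' c₁ c₂ z hk hFW hW hW' h1 h2 h12 hj hp hT hb1 hb2 hWW hK hK0
  obtain ⟨-, hb1'⟩ := getD_of_true hb1
  obtain ⟨-, hb2'⟩ := getD_of_true hb2
  obtain ⟨m₁, m₂, hl, htl, hdl, hwU, hwU'⟩ := core' k true W' W c₁ c₂ hW' hW h1 h2 h12
    (by rw [hWW c₁ h1, if_pos (Or.inl rfl)]) (by rw [hWW c₂ h2, if_pos (Or.inr rfl)]) (by
      intro i hi
      rw [hWW i hi]
      by_cases h : i = c₁ ∨ i = c₂
      · rw [if_pos h]
        rcases h with h | h
        · rw [h, hb1']; rfl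
        · rw [h, hb2']; rfl
      · rw [if_neg h, if_neg h])
  rw [wt_true] at hwU
  rw [show (!true) = false from rfl, wt_false] at hwU'
  have h3 := hSRT.1 V H X k ε K z _ _ _ (hT m₂.reverse m₁.reverse
    (by rw [List.length_reverse, List.length_reverse]; omega)
    (by rw [wt_reverse, wt_reverse]; omega))
  have e1 : ((true :: m₂.reverse ++ true :: m₁.reverse).dropLast).reverse =
      (m₁ ++ true :: m₂ ++ [true]).tail := by
    rw [← List.tail_reverse]
    simp
  have e2 : (m₂.reverse ++ false :: m₁.reverse ++ decide (z ∈ X) ::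
      (m₂.reverse ++ true :: m₁.reverse)).reverse =
      m₁ ++ true :: m₂ ++ decide (z ∈ X) :: (m₁ ++ false :: m₂) := by
    simp
  have e3 : ((m₂.reverse ++ false :: m₁.reverse ++ [false]).tail).reverse =
      ((!true) :: m₁ ++ (!true) :: m₂).dropLast := by
    rw [← List.dropLast_reverse]
    simp
  rw [e1, e2, e3, htl, hdl] at h3
  have hlc : (m₁ ++ true :: m₂ ++ decide (z ∈ X) :: (m₁ ++ false :: m₂)).length =
      2 * k - 1 := by
    simp only [List.length_append, List.length_cons]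
    omega
  have R := rea_tok hREL hCMO hTKR hPER V H X k p ε K K' W' W _ c₁ z hk hFW hW' hW h1
    (by omega) hp hlc h3 hK
  refine ⟨_, ?_, R⟩
  have a1 := wt_le (per W' (k - 1) (c₁ + 2))
  have a2 := wt_le (m₁ ++ true :: m₂ ++ decide (z ∈ X) :: (m₁ ++ false :: m₂))
  have a3 := wt_le (per W c₁ (k - 1))
  have a4 := wt_le (per W (c₁ + k - 1) (k - c₁))
  rw [hlc] at a2
  rw [per_length] at a1 a3 a4
  omega

end Pool.Agent.KK.H88
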